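import Mathlib

set_option autoImplicit false

/-!
# TFJ: the trace level of the Farrell-Jones conjecture in degree 0 (MP_bed68a_al), definitions

Universe levels: everything is stated for `Type`.
-/

namespace Pool.Agent.TFJ

open scoped BigOperators

/-! ## Injective metric spaces -/

/-- Injective (hyperconvex) metric space: closed balls `B(x i, r i)` with
`dist (x i) (x j) <= r i + r j` for all `i, j` have a common point. -/
def Hyperconvex (E : Type) [MetricSpace E] : Prop :=
  ∀ (ι : Type) (x : ι → E) (r : ι → ℝ), (∀ i j, dist (x i) (x j) ≤ r i + r j) →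
    ∃ z : E, ∀ i, dist z (x i) ≤ r i

/-- `G` acts by isometries, properly and coboundedly on the injective metric space `E`. -/
structure InjAction (G E : Type) [Group G] [MetricSpace E] [MulAction G E] : Prop where
  isom : ∀ (g : G) (x y : E), dist (g • x) (g • y) = dist x y
  inj : Hyperconvex E
  proper : ∀ (x : E) (r : ℝ), {g : G | dist x (g • x) ≤ r}.Finite
  cobdd : ∃ (x : E) (R : ℝ), ∀ y : E, ∃ g : G, dist y (g • x) ≤ R

/-- `g` is not conjugate to an `m`-th power with `m > b`, for some bound `b`. -/
def FewRoots {G : Type} [Group G] (g : G) : Prop :=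
  ∃ b : ℕ, ∀ (h : G) (m : ℕ), IsConj g (h ^ m) → m ≤ b

section
variable {E : Type} [MetricSpace E]

/-- `f x + f y >= d(x,y)` -/
def Adm (f : E → ℝ) : Prop := ∀ x y, dist x y ≤ f x + f y

/-- `f^*(x) = sup_z (d(x,z) - f(z))` -/
noncomputable def st (f : E → ℝ) (x : E) : ℝ := ⨆ z, (dist x z - f z)

/-- `q f = (f + f^*) / 2` -/
noncomputable def qq (f : E → ℝ) (x : E) : ℝ := (f x + st f x) / 2

end

/-! ## Graded rings and traces -/

/-- The additive subgroup generated by the additive commutators `a b - b a`. -/
def Comm (S : Type) [Ring S] : AddSubgroup S :=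
  AddSubgroup.closure {z | ∃ a b : S, z = a * b - b * a}

/-- `z` is in `N S + [S,S]`. -/
def DivBy (S : Type) [Ring S] (N : ℕ) (z : S) : Prop := ∃ s : S, z - N • s ∈ Comm S

/-- `S` is the direct sum of the additive subgroups `A g`, `1` is in `A 1` and
`A g * A h` is contained in `A (g h)`. -/
structure Graded {G S : Type} [Group G] [Ring S] (A : G → AddSubgroup S) : Prop where
  one : (1 : S) ∈ A 1
  mul : ∀ (g h : G) (x y : S), x ∈ A g → y ∈ A h → x * y ∈ A (g * h)
  span : ∀ x : S, ∃ c : G →₀ S, (∀ g, c g ∈ A g) ∧ (c.sum fun _ y => y) = x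
  indep : ∀ c : G →₀ S, (∀ g, c g ∈ A g) → (c.sum fun _ y => y) = 0 → c = 0

open Classical in
/-- The part of `sum_g c g` in the conjugacy class of `g₀`. -/
noncomputable def clPart {G S : Type} [Group G] [Ring S] (g₀ : G) (c : G →₀ S) : S :=
  ∑ g ∈ c.support.filter (fun g => IsConj g₀ g), c g

/-- The ordered product of a word. -/
def wprod {M : Type} [Monoid M] {P : ℕ} (x : Fin P → M) : M := (List.ofFn x).prod

/-- The rotated word. -/
def rot {M : Type} {P : ℕ} (x : Fin P → M) : Fin P → M := fun i => x (finRotate P i)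

end Pool.Agent.TFJ
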