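import Pool.Agent.TFJ.Defs

set_option autoImplicit false

/-!
# Squad TFJ (MP_bed68a_al), rows

THEOREM. Let `G` act by isometries, properly and coboundedly on an injective metric space (every
hierarchically hyperbolic group does, Haettel-Hoda-Petyt). Let `S` be ANY `G`-graded ring, `e` an
idempotent matrix over `S`, `g₀` an element of infinite order. Then the part of `trace e` in the
conjugacy class of `g₀` lies in `N S + [S,S]` for every `N >= 1`; for twisted group algebras of
characteristic zero it lies in `[S,S]`. This is the trace level, in degree 0, of the surjectivity of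
the Farrell-Jones assembly map with arbitrary coefficients.

Every docstring contains a complete proof.
-/

namespace Pool.Agent.TFJ

open scoped BigOperators

/-! ## Geometry -/

/-- STA (easy-medium). Proof. `d(x,z) - f z <= f x` (`Adm f`), so the supremum `st f x` is over a
family bounded above by `f x` (nonempty: `z = x`), which gives the first two parts
(`le_ciSup`, `ciSup_le`). `Adm (qq f)`: `st f x >= d(x,y) - f y` and `st f y >= d(y,x) - f x`, add.
`qq f <= f` because `st f <= f`. As `qq f <= f` we have `st (qq f) >= st f` (each term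
`d(x,z) - qq f z >= d(x,z) - f z`; bounded above because `Adm (qq f)`), so
`qq f x - st (qq f) x <= qq f x - st f x = (f x - st f x) / 2`. -/
def StaStmt : Prop :=
  ∀ (E : Type) [MetricSpace E] (f : E → ℝ), Adm f →
    (∀ x z, dist x z - f z ≤ st f x) ∧ (∀ x, st f x ≤ f x) ∧ Adm (qq f) ∧ (∀ x, qq f x ≤ f x) ∧
      ∀ x, qq f x - st (qq f) x ≤ (f x - st f x) / 2

/-- STB (easy-medium). Proof. Each term of `st f x` differs from the term of `st g x` by at most
`a`, both suprema are bounded above (by `f x`, `g x`), so `|st f x - st g x| <= a`; average. Second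
part: `dist (φ x) (φ z) = dist x z` and `φ` is a bijection, so the two suprema are over the same
set (`Equiv.iSup_congr` or `Function.Surjective.iSup_congr`). -/
def StbStmt : Prop :=
  (∀ (E : Type) [MetricSpace E] (f g : E → ℝ) (a : ℝ), Adm f → Adm g → (∀ x, |f x - g x| ≤ a) →
    ∀ x, |qq f x - qq g x| ≤ a) ∧
  ∀ (E : Type) [MetricSpace E] (f : E → ℝ) (φ : Equiv.Perm E),
    (∀ x y, dist (φ x) (φ y) = dist x y) → (qq fun x => f (φ x)) = fun x => qq f (φ x)

/-- NEA (medium, uses STA). Proof. `f_n = qq^[n] f` is admissible and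
`f_n x - st f_n x <= C / 2^n` (induction, STA). Choose `n` with `C / 2^n <= δ`, `F = f_n`. By
`Hyperconvex` (index type `E`, centres `x`, radii `F x`) there is `z` with `dist z x <= F x` for all
`x`. Conversely `F x <= st F x + δ`, and every term `d(x,w) - F w` of the supremum is
`<= d(x,w) - d(z,w) <= d(z,x)`, so `st F x <= d(z,x)` (`ciSup_le`). -/
def NeaStmt : Prop :=
  ∀ (E : Type) [MetricSpace E], Hyperconvex E → ∀ (f : E → ℝ) (C δ : ℝ), Adm f →
    (∀ x, f x - st f x ≤ C) → 0 < δ → ∃ (n : ℕ) (z : E), ∀ x, |qq^[n] f x - dist z x| ≤ δ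

/-- DSP (medium, uses STA STB NEA). Proof. `f u = (1/N) sum_(i<N) d(φ^i x, u)`. `Adm f`: average of
`d(u,v) <= d(φ^i x,u) + d(φ^i x,v)`. `f u <= f x + d(x,u)` (triangle) and `st f u >= d(u,x) - f x`
(STA), so `f u - st f u <= 2 f x =: C`. Let `g u = f (φ^(-1) u) = (1/N) sum_(i<N) d(φ^(i+1) x, u)`
(`φ` an isometry), admissible; `|f u - g u| = (1/N) |d(x,u) - d(φ^N x,u)| <= d(x,φ^N x)/N`
(telescoping). NEA with `δ/2`: `n, z`. By STB (second part for `φ.symm`, `n` times)
`qq^[n] g = (qq^[n] f) o φ^(-1)`, and by STB (first part, `n` times)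
`|qq^[n] f - qq^[n] g| <= d(x,φ^N x)/N`. At `u = φ z`:
`d(z,φ z) <= qq^[n] f (φ z) + δ/2 <= qq^[n] g (φ z) + d(x,φ^N x)/N + δ/2` and
`qq^[n] g (φ z) = qq^[n] f z <= d(z,z) + δ/2 = δ/2`. Take `y = z`. -/
def DspStmt : Prop :=
  ∀ (E : Type) [MetricSpace E], Hyperconvex E → ∀ φ : Equiv.Perm E,
    (∀ x y, dist (φ x) (φ y) = dist x y) → ∀ (x : E) (N : ℕ) (δ : ℝ), 1 ≤ N → 0 < δ →
      ∃ y, dist y (φ y) ≤ dist x ((φ ^ N) x) / N + δ

/-- TRL (medium, uses DSP). Proof. `x₀, R` from `cobdd`; `T = {h | d(x₀, h x₀) <= 2 R + 1}` is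
finite, `M` its cardinality, `c = 1/(M+1)`. Suppose `d(x,g^N x) < c N`; then `N >= 1`; with
`δ = c - d(x,g^N x)/N > 0` DSP (for `φ = MulAction.toPerm g`) gives `y` with `d(y,g y) <= c`, so
`d(y,g^m y) <= m c <= 1` for `m <= M`. Take `h` with `d(y,h x₀) <= R`. Then
`d(x₀, h⁻¹ g^m h x₀) = d(h x₀, g^m h x₀) <= 2 R + 1`, so the `M + 1` elements `h⁻¹ g^m h`,
`m <= M`, are in `T`; two of them are equal, `g^m = g^m'` with `m < m'`, `g^(m'-m) = 1`:
contradiction. -/
def TrlStmt : Prop :=
  ∀ (G E : Type) [Group G] [MetricSpace E] [MulAction G E], InjAction G E →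
    ∃ c : ℝ, 0 < c ∧ ∀ g : G, (∀ n : ℕ, 1 ≤ n → g ^ n ≠ 1) → ∀ (x : E) (N : ℕ),
      c * N ≤ dist x (g ^ N • x)

/-- ROO (easy-medium, uses TRL). Proof. `c` from TRL, `x` any point (`cobdd`),
`b = ⌈d(x,g x)/c⌉₊`. Let `s g s⁻¹ = h^m`, we may assume `m >= 1`. `h` has infinite order (if `h^n = 1`, `n >= 1`,
then `s g^n s⁻¹ = h^(m n) = 1`). For every `N`: `h^(m N) = s g^N s⁻¹`, so
`c m N <= d(x, h^(mN) x) = d(s⁻¹ x, g^N s⁻¹ x) <= 2 d(x,s⁻¹ x) + d(x,g^N x) <=
2 d(x,s⁻¹ x) + N d(x,g x)`. If `c m > d(x,g x)` this is false for large `N`. So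
`m <= d(x,g x)/c <= b`. -/
def RooStmt : Prop :=
  ∀ (G E : Type) [Group G] [MetricSpace E] [MulAction G E], InjAction G E →
    ∀ g : G, (∀ n : ℕ, 1 ≤ n → g ^ n ≠ 1) → FewRoots g

/-! ## Words and necklaces -/

/-- EXW (easy-medium). Proof. Induction on `P`: `Fin.consEquiv` / `Fin.snocEquiv` (or
`Fintype.sum_equiv` with `Fin.insertNthEquiv`), `List.ofFn_succ`, `Finset.sum_mul_sum`. -/
def ExwStmt : Prop :=
  ∀ (S : Type) [Ring S] (ι : Type) [Fintype ι] (x : ι → S) (P : ℕ),
    (∑ i, x i) ^ P = ∑ w : Fin P → ι, wprod fun j => x (w j)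

/-- ROT (easy-medium). Proof. `P = 0`: `rot x = x` (empty word). `P = Q + 1`: `wprod x = x 0 * y`
with `y = wprod (fun j => x j.succ)` (`List.ofFn_succ`) and `wprod (rot x) = y * x 0`
(`List.ofFn_succ'`, `finRotate_last`, `finRotate (Q+1) j.castSucc = j.succ`: `finRotate_succ_apply`,
`Fin.coeSucc_eq_succ`). In a ring the difference is a commutator, in a group
`y * x 0 = (x 0)⁻¹ * (x 0 * y) * x 0`. -/
def RotStmt : Prop :=
  (∀ (S : Type) [Ring S] (P : ℕ) (x : Fin P → S), wprod x - wprod (rot x) ∈ Comm S) ∧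
  ∀ (G : Type) [Group G] (P : ℕ) (x : Fin P → G), IsConj (wprod x) (wprod (rot x))

/-- ORB (medium). Proof. Strong induction over `σ`-stable finsets `U`: `sum_U φ` is in `D • H`. If
`U` is empty: `0`. Otherwise take `x` in `U`, `m = minimalPeriod σ x >= 1` (`X` finite, `σ` a
permutation: every point is periodic), `O = image (i -> σ^i x) (range m)`: `m` different points of
`U` (`Function.iterate_injOn_Iio_minimalPeriod` or similar), `U \ O` is `σ`-stable, `φ` is constant
on `O`, so `sum_O φ = m • φ x`, which is `0` if `φ x = 0` and in `D • H` if `D` divides `m`. -/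
def OrbStmt : Prop :=
  ∀ (X H : Type) [Fintype X] [AddCommGroup H] (σ : Equiv.Perm X) (φ : X → H) (D : ℕ),
    (∀ x, φ (σ x) = φ x) → (∀ x, φ x = 0 ∨ D ∣ Function.minimalPeriod σ x) →
      ∃ h : H, ∑ x, φ x = D • h

/-- PER (medium). Proof. Write `W(j) = x ⟨j % P, _⟩` for natural `j` (if `P = 0` everything is `1`:
`v = 1`). `wprod x = ((List.range P).map W).prod`. `rot^[i] x ⟨j, _⟩ = W (j + i)` for `j < P`
(induction on `i`), so `rot^[m] x = x` gives `W (j + m) = W j` for all `j`. Then
`((List.range (m * q)).map W).prod = (((List.range m).map W).prod)^q` by induction on `q`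
(`List.range_add`). -/
def PerStmt : Prop :=
  ∀ (M : Type) [Monoid M] (P m q : ℕ) (x : Fin P → M), P = m * q → rot^[m] x = x →
    ∃ v : M, wprod x = v ^ q

/-- NKL (medium, uses ROT ORB PER). Proof. `X = (Fin (p^n) → ι)`, `σ w = w o finRotate`
(`Equiv.arrowCongr` or `Equiv.piCongrLeft`; `σ w = rot w`), `H = S ⧸ Comm S`,
`φ w` = class of `if IsConj g₀ (wprod (d o w)) then wprod (x o w) else 0`. `φ (σ w) = φ w` by ROT
(`rot (d o w) = d o (rot w)`; conjugacy is an equivalence relation). `σ^(p^n) = 1` (`finRotate P`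
has order `P`: `finRotate_pow` or `rot^[P] x = x`), so `minimalPeriod σ w` divides `p^n` and is
`p^i`. If `i >= k` then `p^k` divides it. If `i < k`: `rot^[p^i] (d o w) = d o w`,
`p^n = p^i p^(n-i)`, so by PER `wprod (d o w) = v^(p^(n-i))`, `n - i > n - k`, and it is not
conjugate to `g₀` by hypothesis: `φ w = 0`. ORB with `D = p^k`: the sum is `p^k • h` in `H`; lift
`h` to `S`. -/
def NklStmt : Prop :=
  ∀ (S G ι : Type) [Ring S] [Group G] [Fintype ι] (x : ι → S) (d : ι → G) (g₀ : G) (p k n : ℕ),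
    p.Prime → k ≤ n → (∀ (h : G) (s : ℕ), n - k < s → ¬ IsConj g₀ (h ^ p ^ s)) →
      open Classical in
      DivBy S (p ^ k) (∑ w : Fin (p ^ n) → ι,
        if IsConj g₀ (wprod fun j => d (w j)) then wprod (fun j => x (w j)) else 0)

/-! ## Graded rings -/

/-- GCP (easy-medium). Proof. `clPart g₀ c = c.sum (fun g y => if IsConj g₀ g then y else 0)`, which
is additive in `c`. Let `c' = sum_k single (δ k) (y k)`; `c' g = sum_(δ k = g) y k` is in `A g` and
the sum of `c'` is `sum_k y k`. `c - c'` has components in `A g` and sum `0`, so `c = c'` by `indep`,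
and `clPart g₀ c' = sum_k (if IsConj g₀ (δ k) then y k else 0)`. -/
def GcpStmt : Prop :=
  ∀ (G S κ : Type) [Group G] [Ring S] [Fintype κ] (A : G → AddSubgroup S), Graded A →
    ∀ (y : κ → S) (δ : κ → G) (c : G →₀ S) (g₀ : G), (∀ k, y k ∈ A (δ k)) → (∀ g, c g ∈ A g) →
      (c.sum fun _ z => z) = ∑ k, y k →
        open Classical in
        clPart g₀ c = ∑ k, if IsConj g₀ (δ k) then y k else 0

/-- WPM (easy). Proof. Induction on `P` (`List.ofFn_succ`), `one` and `mul` of `Graded`. -/
def WpmStmt : Prop :=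
  ∀ (G S : Type) [Group G] [Ring S] (A : G → AddSubgroup S), Graded A →
    ∀ (P : ℕ) (x : Fin P → S) (d : Fin P → G), (∀ j, x j ∈ A (d j)) → wprod x ∈ A (wprod d)

/-- IDE (medium, uses EXW NKL GCP WPM). Proof. `b` from `FewRoots g₀`, `n = k + b`, so
`p^s > b` for `s > n - k = b` (`Nat.lt_pow_self`, `s < p^s`), hence `g₀` is not conjugate to
`h^(p^s)` for `s > n - k`. `ι = c.support` (as a type), `x i = c i`, `d i = i`: `e = sum_i x i`.
`e^(p^n) = e` (`p^n >= 1`, `IsIdempotentElem.pow_eq`-like). By EXW `e = sum_w wprod (x o w)`, the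
words are homogeneous of degree `wprod (d o w)` (WPM), so GCP with `κ = (Fin (p^n) → ι)` gives
`clPart g₀ c = sum_w (if .. then wprod (x o w) else 0)`, and NKL says that this is
`DivBy S (p^k)`. -/
def IdeStmt : Prop :=
  ∀ (G S : Type) [Group G] [Ring S] (A : G → AddSubgroup S), Graded A →
    ∀ (e : S) (c : G →₀ S) (g₀ : G), e * e = e → (∀ g, c g ∈ A g) → (c.sum fun _ z => z) = e →
      FewRoots g₀ → ∀ p k : ℕ, p.Prime → DivBy S (p ^ k) (clPart g₀ c)

/-- CRN (easy-medium). Proof. If `z = a s + u` and `z = b t + v` with `u, v` in `Comm S` and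
`1 = α a + β b` in the integers then
`z = α a z + β b z = α a (b t + v) + β b (a s + u) = a b (α t + β s) + (element of Comm S)`.
So `DivBy` for `a` and `b` coprime gives `DivBy` for `a b`; induction over the prime powers of `N`
(`Nat.recOnPosPrimePosCoprime`); `N = 1`: `s = z`. -/
def CrnStmt : Prop :=
  ∀ (S : Type) [Ring S] (z : S), (∀ p k : ℕ, p.Prime → DivBy S (p ^ k) z) →
    ∀ N : ℕ, 1 ≤ N → DivBy S N z

/-- MAT (medium). Proof. (1) `B g` = matrices with all entries in `A g`. `one`: the entries of `1`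
are `1` and `0`. `mul`: entries of a product. `span`: for a matrix `X` take decompositions
`c i j` of the entries and `c g = Matrix.of (fun i j => c i j g)`, a finitely supported function
(support in the union of the supports). `indep`: entrywise. (2) trace of a matrix in `B g` is in
`A g`. (3) `trace (X Y - Y X) = sum_(i,j) (X i j * Y j i - Y j i * X i j)` is in `Comm S`; so the
trace maps `Comm (Matrix)` to `Comm S` (`AddSubgroup.closure_induction`) and `N • X` to
`N • trace X`. -/
def MatStmt : Prop :=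
  ∀ (G S : Type) [Group G] [Ring S] (A : G → AddSubgroup S), Graded A → ∀ n : ℕ,
    (∃ B : G → AddSubgroup (Matrix (Fin n) (Fin n) S), Graded B ∧
      ∀ g X, X ∈ B g → Matrix.trace X ∈ A g) ∧
    ∀ (N : ℕ) (X : Matrix (Fin n) (Fin n) S), DivBy (Matrix (Fin n) (Fin n) S) N X →
      DivBy S N (Matrix.trace X)

/-- FIN (medium, uses IDE CRN MAT GCP). Proof. `B` from MAT, `C` a decomposition of `e` (span of
`B`), IDE for the ring of matrices and CRN: `DivBy (Matrix) N (clPart g₀ C)`, so by MAT
`DivBy S N (trace (clPart g₀ C))`. `trace (clPart g₀ C) = sum_(g in supp C, conj) trace (C g)` and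
`trace e = sum_(g in supp C) trace (C g)` with `trace (C g)` in `A g`: by GCP (`κ = C.support`)
this is `clPart g₀ c`. -/
def FinStmt : Prop :=
  ∀ (G S : Type) [Group G] [Ring S] (A : G → AddSubgroup S), Graded A →
    ∀ (n : ℕ) (e : Matrix (Fin n) (Fin n) S) (c : G →₀ S) (g₀ : G), e * e = e →
      (∀ g, c g ∈ A g) → (c.sum fun _ z => z) = Matrix.trace e → FewRoots g₀ →
        ∀ N : ℕ, 1 ≤ N → DivBy S N (clPart g₀ c)

/-! ## Twisted group algebras in characteristic zero -/

/-- `S` is the twisted group algebra `F_α[G]` with basis `u`. -/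
structure Twisted {F G S : Type} [Field F] [Group G] [Ring S] [Algebra F S] (α : G → G → Fˣ)
    (u : G → S) : Prop where
  one : u 1 = 1
  mul : ∀ g h, u g * u h = (α g h : F) • u (g * h)
  indep : LinearIndependent F u
  span : ∀ x : S, x ∈ Submodule.span F (Set.range u)

/-- DIV (medium). A nonzero element of a finitely generated domain of characteristic zero is not
divisible by all `N`. Proof. Suppose `r ≠ 0`. `r` is in `R` (`N = 1`). `R' = Subring.closure
(T ∪ {r⁻¹})` is a nonzero finitely generated commutative ring; let `m` be a maximal ideal,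
`K = R'/m` a field of finite type over `ℤ`; `ℤ` is a Jacobson ring, so `K` is a finitely generated
abelian group (`finite_of_finite_type_of_isJacobsonRing`) and not of characteristic zero (`ℚ` is not
finitely generated / a finitely generated divisible abelian group is `0`), so some prime `p` is `0`
in `K`, `p` is in `m`. `r = p s` with `s` in `R ⊆ R'` is in `m`, but `r` is a unit of `R'`:
contradiction. -/
def DivStmt : Prop :=
  ∀ (F : Type) [Field F] [CharZero F] (T : Finset F) (r : F),
    (∀ N : ℕ, 1 ≤ N → ∃ s ∈ Subring.closure (T : Set F), r = N • s) → r = 0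

/-- TWB (medium-strong). The trace of a twisted group algebra at the class of `g₀`. Proof. `u g` is a
unit (`u g * u g⁻¹ = α • u 1`). For `s` in `G`: `u s * u g₀ * (u s)⁻¹ = θ(s) • u (s g₀ s⁻¹)`,
`θ(s) = α s g₀ / α (s g₀ s⁻¹) s`, an element of the subgroup `Λ` generated by the values of `α`
(multiply by `u s` on the right). Modulo `Comm S`: `a • u g₀ = a θ(s) • u (s g₀ s⁻¹)` (`z w` and
`w z`, with `w = (u s)⁻¹`, `z = a • u s * u g₀`). CASE 1: `θ(t) ≠ 1` for some `t` commuting with
`g₀`: then `(θ(t) - 1) a • u g₀` is in `Comm S` for all `a`, so `a • u g₀` is, and so is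
`a • u h` for all `h` conjugate to `g₀`: first alternative. CASE 2: `θ(t) = 1` for all such `t`.
If `s g₀ s⁻¹ = s' g₀ s'⁻¹` then `s' = s t`, `u s'` is a scalar times `u s * u t`, so
`θ(s') = θ(s)`. Choose for `h` conjugate to `g₀` an `s_h` with `h = s_h g₀ s_h⁻¹` and let `ρ` be the
linear form with `ρ (u h) = θ(s_h)⁻¹` for `h` conjugate to `g₀` and `0` for the other `h`.
`ρ (x y) = ρ (y x)`: enough `x = u a`, `y = u b`; `u b * u a = (u a)⁻¹ * (u a * u b) * u a`, and
`ρ ((u a)⁻¹ * u c * u a) = ρ (u c)`: if `c = s g₀ s⁻¹`, `u c = θ(s)⁻¹ • u s * u g₀ * (u s)⁻¹`,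
`(u a)⁻¹ * u s` is a scalar times `u (a⁻¹ s)`, so the left side is
`θ(s)⁻¹ θ(a⁻¹ s) ρ (u (a⁻¹ c a)) = θ(s)⁻¹`; if `c` is not conjugate to `g₀` both are `0`.
Last part: for `x = sum a_h u h` over `h` conjugate to `g₀`, `x = ρ(x) • u g₀` modulo `Comm S`. -/
def TwbStmt : Prop :=
  ∀ (F G S : Type) [Field F] [Group G] [Ring S] [Algebra F S] (α : G → G → Fˣ) (u : G → S),
    Twisted α u → ∀ g₀ : G,
      (∀ (a : F) (h : G), IsConj g₀ h → a • u h ∈ Comm S) ∨
      ∃ ρ : S →ₗ[F] F, (∀ x y, ρ (x * y) = ρ (y * x)) ∧ (∀ h, ¬ IsConj g₀ h → ρ (u h) = 0) ∧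
        (∀ h, IsConj g₀ h → ∃ v ∈ Subgroup.closure (Set.range fun q : G × G => α q.1 q.2),
          ρ (u h) = (v : Fˣ)) ∧
        ∀ a : G →₀ F, (∀ h, ¬ IsConj g₀ h → a h = 0) → ρ (a.sum fun h y => y • u h) = 0 →
          (a.sum fun h y => y • u h) ∈ Comm S

/-- TWA (medium). The subring `S_R` of the elements with coordinates in `R`. Proof. `S_R` = all sums
`a.sum (fun h y => y • u h)` with `a h` in `R`. Closed under addition and negation, contains
`1 = u 1`, and `(y • u g) (z • u h) = (y z α g h) • u (g h)` (finite sums). Grading: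
`A g = {y • u g | y in R}` (as a subgroup of `S_R`): `one`, `mul` clear, `span` by definition,
`indep` from linear independence (compare coordinates). -/
def TwaStmt : Prop :=
  ∀ (F G S : Type) [Field F] [Group G] [Ring S] [Algebra F S] (α : G → G → Fˣ) (u : G → S),
    Twisted α u → ∀ R : Subring F, (∀ g h, (α g h : F) ∈ R) →
      ∃ (T : Subring S) (A : G → AddSubgroup T), Graded A ∧
        (∀ x : S, x ∈ T ↔ ∃ a : G →₀ F, (∀ h, a h ∈ R) ∧ x = a.sum fun h y => y • u h) ∧
        ∀ (g : G) (x : T), x ∈ A g ↔ ∃ y ∈ R, (x : S) = y • u g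

/-- TWC (medium, uses FIN DIV TWB TWA). The part of the trace of an idempotent matrix over a twisted
group algebra of characteristic zero (values of the cocycle in a finitely generated group) in the
class of `g₀` is a sum of commutators. Proof. TWB; first alternative: every term `a h • u h`,
`h` conjugate to `g₀`, is in `Comm S`. Second alternative: `T₀` = finite set of the coordinates of
all entries of `e`, of the elements of `Y` and of their inverses, `R = Subring.closure T₀`; `R`
contains the group generated by `Y`, so all `α g h` (and all `v` of TWB). TWA: `T`, `A`; the entries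
of `e` are in `T`, so `e` is the image of an idempotent matrix `e'` over `T`, and the decomposition
of `trace e'` is `c' g = a g • u g` (in `T`, because the coordinates of `trace e` are in `R`). FIN:
for every `N >= 1` there is `s` in `T` with `clPart g₀ c' - N s` in `Comm T`, which `ρ` kills
(`Comm T` maps into `Comm S`). So `ρ (x) = N ρ (s)` for
`x = sum_(h conj) a h • u h`, and `ρ (s)` is in `R` (coordinates of `s` in `R`, `ρ (u h)` in `R`).
DIV: `ρ (x) = 0`, and `x` is in `Comm S` by the last part of TWB. -/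
def TwcStmt : Prop :=
  ∀ (F G S : Type) [Field F] [CharZero F] [Group G] [Ring S] [Algebra F S] (α : G → G → Fˣ)
    (u : G → S) (Y : Finset Fˣ), Twisted α u → (∀ g h, α g h ∈ Subgroup.closure (Y : Set Fˣ)) →
    ∀ (n : ℕ) (e : Matrix (Fin n) (Fin n) S) (a : G →₀ F) (g₀ : G), e * e = e →
      Matrix.trace e = (a.sum fun h y => y • u h) → FewRoots g₀ →
        open Classical in
        ∑ h ∈ a.support.filter (fun h => IsConj g₀ h), a h • u h ∈ Comm S

end Pool.Agent.TFJ
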